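import Pool.Agent.Y188.DiagFree

/-!
# Fujita's freeness conjecture for étale quotients by diagonal groups

`Y ⊂ P^N` is given by a homogeneous ideal `I`, and a finite group `G` of any order acts by diagonal
matrices on `P^N`, preserving `Y`, freely on `Y`. Let `ω_Y = O(κ)` and `n = dim Y`, and let `Y` be a
complete intersection, or arithmetically Cohen-Macaulay. For `X = Y/G` and a line bundle `A` on `X`
whose pullback to `Y` is `O(k)`, `k ≥ 1`, the sections of `K_X + mA` are the forms of degree `κ + mk`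
on the cone over `Y` on which `G` acts by a given character `χ`. For `m ≥ n + 1` they have no common
zero on `X`: the bundle `K_X + mA` is globally generated.
-/

set_option autoImplicit false

namespace Pool.Agent.Results.MP_9ff3e7_ag.DiagonalQuotients

open MvPolynomial Pool.Agent.Y188

/-- A homogeneous ideal `I` in `ℂ[x_0, …, x_N]` and an action of `G` on `ℂ^(N+1)` by diagonal
matrices, the `i`-th coordinate being multiplied by the character `α i`. The ideal `I` is
stable under `G`, and no element `g ≠ 1` fixes a line in its zero set. -/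
structure DiagonalCover (G : Type) [Group G] (N : ℕ) where
  I : Ideal (MvPolynomial (Fin (N + 1)) ℂ)
  homogeneous : ∀ p ∈ I, ∀ n, homogeneousComponent n p ∈ I
  α : Fin (N + 1) → G →* ℂˣ
  stable : ∀ (g : G), ∀ p ∈ I, bind₁ (fun i => C (α i g : ℂ) * X i) p ∈ I
  free : ∀ v : Fin (N + 1) → ℂ, v ≠ 0 → (∀ p ∈ I, eval v p = 0) → ∀ (g : G) (μ : ℂ),
    (∀ i, (α i g : ℂ) * v i = μ * v i) → g = 1

/-- `I` is generated by `c = N - n` forms of degrees `d j ≥ 1`, and `κ = ∑ d j - (N + 1)`. -/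
def CompleteIntersection {N : ℕ} (I : Ideal (MvPolynomial (Fin (N + 1)) ℂ)) (n : ℕ) (κ : ℤ) :
    Prop :=
  ∃ (c : ℕ) (f : Fin c → MvPolynomial (Fin (N + 1)) ℂ) (d : Fin c → ℕ),
    (∀ j, (f j).IsHomogeneous (d j) ∧ 0 < d j) ∧ I = Ideal.span (Set.range f) ∧
    N = n + c ∧ κ = ∑ j, (d j : ℤ) - (N + 1)

/-- There are `n + 1` linear forms which are a regular sequence modulo `I`, and modulo `I` and these
linear forms there are no nonzero forms of degree `> κ + n + 1`. For the ideal of an arithmetically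
Cohen-Macaulay variety of dimension `n` this says that the `a`-invariant is at most `κ`. -/
def CohenMacaulay {N : ℕ} (I : Ideal (MvPolynomial (Fin (N + 1)) ℂ)) (n : ℕ) (κ : ℤ) : Prop :=
  ∃ a : Fin (n + 1) → Fin (N + 1) → ℂ,
    (∀ i p, linForm (a i) * p ∈ I ⊔ Ideal.span ((fun j => linForm (a j)) '' {j | j < i}) →
      p ∈ I ⊔ Ideal.span ((fun j => linForm (a j)) '' {j | j < i})) ∧
    ∀ t : ℕ, κ + n + 1 < t → ∀ p : MvPolynomial (Fin (N + 1)) ℂ, p.IsHomogeneous t →
      p ∈ I ⊔ Ideal.span (Set.range fun j => linForm (a j))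

theorem result {G : Type} [Group G] [Finite G] {N : ℕ} (D : DiagonalCover G N) (n : ℕ) (κ : ℤ)
    (hY : CompleteIntersection D.I n κ ∨ CohenMacaulay D.I n κ)
    (k m e : ℕ) (hk : 1 ≤ k) (hm : n + 1 ≤ m) (he : (e : ℤ) = κ + m * k) (χ : G →* ℂˣ)
    (y : Fin (N + 1) → ℂ) (hy0 : y ≠ 0) (hy : ∀ p ∈ D.I, eval y p = 0) :
    ∃ F : MvPolynomial (Fin (N + 1)) ℂ, F.IsHomogeneous e ∧
      (∀ (g : G) (x : Fin (N + 1) → ℂ),
        eval (fun i => (D.α i g : ℂ) * x i) F = χ g * eval x F) ∧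
      eval y F ≠ 0 := by
  have hmk : (n : ℤ) + 1 ≤ m * k := by
    have h1 : n + 1 ≤ m * k := hm.trans (Nat.le_mul_of_pos_right m hk)
    exact_mod_cast h1
  obtain ⟨ρ, hρ, hρe⟩ : ∃ ρ : ℕ, Pool.Agent.TH144.MB.TopBound D.I ρ ∧ (ρ : ℤ) = κ + n + 1 := by
    rcases hY with ⟨c, f, d, hfd, hI, hN, hκ⟩ | ⟨a, ha, hb⟩
    · rw [hI]
      exact topBound_of_ci f d hfd hN hκ
    · exact topBound_of_cm D.homogeneous a ha hb hy
  obtain ⟨F, ⟨h1, h2⟩, h3⟩ := exists_form D.homogeneous D.α D.stable D.free hρ (e := e)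
    (by omega) χ hy0 hy
  exact ⟨F, h1, h2, h3⟩

end Pool.Agent.Results.MP_9ff3e7_ag.DiagonalQuotients
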