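import Pool.Agent.Y188.WCI2

/-!
# Fujita's freeness conjecture for weighted complete intersections

Let `X ⊂ P(a_0, …, a_N)` be defined by `c = N - n` weighted homogeneous polynomials `f_j` of degrees
`d_j`, and suppose that the action of `ℂ*` with weights `a_i` is free on the affine cone over `X`
without its vertex (`hfree`): then `O_X(1)` is invertible, and `K_X = O_X(∑ d_j - ∑ a_i)`. If `c ≤ 2`,
or if of any two of the degrees one divides the other, then `K_X + mA` is globally generated for
`A = O_X(k)`, `k ≥ 1`, and `m ≥ n + 1`: no point of `X` is a common zero of the forms of weighted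
degree `e = ∑ d_j - ∑ a_i + mk`.
-/

set_option autoImplicit false

namespace Pool.Agent.Results.MP_9ff3e7_ag.WeightedCompleteIntersections

open MvPolynomial Pool.Agent.Y188

theorem result (N n c : ℕ) (hN : N = n + c)
    (a : Fin (N + 1) → ℕ) (ha : ∀ i, 0 < a i) (d : Fin c → ℕ) (hd : ∀ j, 0 < d j)
    (f : Fin c → MvPolynomial (Fin (N + 1)) ℂ) (hf : ∀ j, IsWeightedHomogeneous a (f j) (d j))
    -- the action of `ℂ*` on the cone is free
    (hfree : ∀ v : Fin (N + 1) → ℂ, v ≠ 0 → (∀ j, eval v (f j) = 0) →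
      ∀ g : ℕ, (∀ i, v i ≠ 0 → g ∣ a i) → g = 1)
    -- codimension at most two, or degrees forming a chain for divisibility
    (hc : c ≤ 2 ∨ ∀ i j, d i ∣ d j ∨ d j ∣ d i)
    (k m e : ℕ) (hk : 1 ≤ k) (hm : n + 1 ≤ m) (he : e + ∑ i, a i = ∑ j, d j + m * k)
    (v : Fin (N + 1) → ℂ) (hv : v ≠ 0) (hfv : ∀ j, eval v (f j) = 0) :
    ∃ s : MvPolynomial (Fin (N + 1)) ℂ, IsWeightedHomogeneous a s e ∧ eval v s ≠ 0 := by
  have S : Sys a d f := ⟨ha, hd, hf, hfree⟩
  have hmk : n + 1 ≤ m * k := hm.trans (Nat.le_mul_of_pos_right m hk)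
  refine S.main ?_ hv hfv (e := e) ?_
  · rcases hc with h | h
    · rcases Nat.lt_or_ge c 2 with h1 | h1
      · left
        intro i j
        have : i = j := Fin.ext (by omega)
        exact Or.inl (this ▸ dvd_rfl)
      · right
        rw [Fintype.card_fin]
        omega
    · exact Or.inl h
  · rw [Fintype.card_fin, Fintype.card_fin]
    omega

end Pool.Agent.Results.MP_9ff3e7_ag.WeightedCompleteIntersections
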